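import Pool.Agent.Helper5_OPEN.Stmt
import Pool.Agent.Helper1_Gen.CompactOf
import Pool.Agent.Helper1_Gen.Rigid
import Pool.Agent.Helper1_Gen.AeTransfer

/-!
Geometric lemmas for CPT: cyclic rotation and reversal of polygons, isometries, corners,
injectivity of weakly convex polygons.
-/

set_option autoImplicit false

namespace Pool.Agent.H5O.H42

open MeasureTheory Complex Filter Topology Pool.Agent.H16Iso Pool.Agent.H1Gen Pool.Agent.H5O

/-- all oriented areas satisfy `R` -/
def Cx (R : ℝ → Prop) {n : ℕ} (v : Fin n → ℂ) : Prop :=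
  ∀ i j k : Fin n, i < j → j < k → R (det (v j - v i) (v k - v i))

theorem ccw_iff {n : ℕ} (v : Fin n → ℂ) : CCW v ↔ Cx (fun x => 0 < x) v := Iff.rfl

theorem wc_iff {n : ℕ} (v : Fin n → ℂ) : WC v ↔ Cx (fun x => 0 ≤ x) v := Iff.rfl

theorem det_cyc (a b c : ℂ) : det (b - a) (c - a) = det (c - b) (a - b) := by
  simp only [det, sub_re, sub_im]; ring

theorem det_cyc' (a b c : ℂ) : det (b - a) (c - a) = det (a - c) (b - c) := by
  simp only [det, sub_re, sub_im]; ring

theorem Cx.rotate {R : ℝ → Prop} {n : ℕ} {v : Fin n → ℂ} (hv : Cx R v) (s : Fin n) :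
    Cx R (fun j => v (j + s)) := by
  intro i j k hij hjk
  have vi := Fin.val_add_eq_ite i s
  have vj := Fin.val_add_eq_ite j s
  have vk := Fin.val_add_eq_ite k s
  have hi := i.isLt
  have hj := j.isLt
  have hk := k.isLt
  have hs := s.isLt
  rw [Fin.lt_def] at hij hjk
  simp only
  by_cases c1 : n ≤ (i : ℕ) + s
  · -- all wrap
    apply hv
    · rw [Fin.lt_def, vi, vj]; split_ifs <;> omega
    · rw [Fin.lt_def, vj, vk]; split_ifs <;> omega
  by_cases c2 : n ≤ (j : ℕ) + s
  · -- j, k wrap: j < k < i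
    rw [det_cyc]
    apply hv
    · rw [Fin.lt_def, vj, vk]; split_ifs <;> omega
    · rw [Fin.lt_def, vk, vi]; split_ifs <;> omega
  by_cases c3 : n ≤ (k : ℕ) + s
  · -- only k: k < i < j
    rw [det_cyc']
    apply hv
    · rw [Fin.lt_def, vk, vi]; split_ifs <;> omega
    · rw [Fin.lt_def, vi, vj]; split_ifs <;> omega
  · apply hv
    · rw [Fin.lt_def, vi, vj]; split_ifs <;> omega
    · rw [Fin.lt_def, vj, vk]; split_ifs <;> omega

theorem Cx.reverse {R : ℝ → Prop} {n : ℕ} {v : Fin n → ℂ} (hv : Cx R v) :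
    Cx R (fun j => (starRingEnd ℂ) (v j.rev)) := by
  intro i j k hij hjk
  have h := hv k.rev j.rev i.rev (Fin.rev_lt_rev.2 hjk) (Fin.rev_lt_rev.2 hij)
  have e : det ((starRingEnd ℂ) (v j.rev) - (starRingEnd ℂ) (v i.rev))
      ((starRingEnd ℂ) (v k.rev) - (starRingEnd ℂ) (v i.rev))
      = det (v j.rev - v k.rev) (v i.rev - v k.rev) := by
    simp only [det, sub_re, sub_im, conj_re, conj_im]; ring
  simp only
  rw [e]
  exact h

theorem Cx.rigid {R : ℝ → Prop} {n : ℕ} {v : Fin n → ℂ} (hv : Cx R v) {τ : ℂ} (hτ : ‖τ‖ = 1)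
    (b : ℂ) : Cx R (fun j => τ * v j + b) := by
  intro i j k hij hjk
  have e1 : (τ * v j + b) - (τ * v i + b) = (v j - v i) * τ := by ring
  have e2 : (τ * v k + b) - (τ * v i + b) = (v k - v i) * τ := by ring
  simp only
  rw [e1, e2, det_rot hτ]
  exact hv i j k hij hjk

theorem poly_iso (g : ℂ ≃ᵢ ℂ) {n : ℕ} (v : Fin n → ℂ) :
    poly (fun i => g (v i)) = g '' poly v := by
  unfold poly
  have h1 : g '' interior (convexHull ℝ (Set.range v)) =
      interior (g '' convexHull ℝ (Set.range v)) := g.toHomeomorph.image_interior _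
  rw [h1]
  congr 1
  have h2 : (g : ℂ → ℂ) = ⇑(g.toRealAffineIsometryEquiv.toAffineIsometry.toAffineMap) := rfl
  rw [h2, AffineMap.image_convexHull, ← Set.range_comp]
  rfl

theorem poly_range {n m : ℕ} {v : Fin n → ℂ} {w : Fin m → ℂ} (h : Set.range v = Set.range w) :
    poly v = poly w := by unfold poly; rw [h]

theorem range_rotate {n : ℕ} (v : Fin (n + 3) → ℂ) (s : Fin (n + 3)) :
    Set.range (fun j => v (j + s)) = Set.range v :=
  (Equiv.addRight s).surjective.range_comp v

theorem range_reverse {n : ℕ} (v : Fin n → ℂ) :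
    Set.range (fun j : Fin n => v j.rev) = Set.range v :=
  Fin.revPerm.surjective.range_comp v

theorem congruent_refl (P : Set ℂ) : Congruent P P := ⟨IsometryEquiv.refl ℂ, by
  rw [show (⇑(IsometryEquiv.refl ℂ) : ℂ → ℂ) = id from rfl, Set.image_id]⟩

theorem congruent_symm {P Q : Set ℂ} (h : Congruent P Q) : Congruent Q P := by
  obtain ⟨g, rfl⟩ := h
  refine ⟨g.symm, ?_⟩
  rw [← Set.image_comp, show (⇑g.symm ∘ ⇑g : ℂ → ℂ) = id from g.symm_comp_self, Set.image_id]

theorem congruent_trans {P Q S : Set ℂ} (h : Congruent P Q) (h' : Congruent Q S) :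
    Congruent P S := by
  obtain ⟨g, rfl⟩ := h
  obtain ⟨g', rfl⟩ := h'
  exact ⟨g.trans g', by rw [← Set.image_comp]; rfl⟩

theorem isom_form (g : ℂ ≃ᵢ ℂ) : ∃ α β : ℂ, ‖α‖ = 1 ∧
    ((∀ z, g z = α * z + β) ∨ (∀ z, g z = α * (starRingEnd ℂ) z + β)) := by
  obtain ⟨a, ha⟩ := linear_isometry_complex g.toRealLinearIsometryEquiv
  have h1 : ∀ z, g z = g.toRealLinearIsometryEquiv z + g 0 := by
    intro z
    rw [IsometryEquiv.toRealLinearIsometryEquiv_apply]
    ring
  refine ⟨a, g 0, Circle.norm_coe a, ?_⟩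
  rcases ha with ha | ha
  · left; intro z; rw [h1, ha]; simp
  · right; intro z; rw [h1, ha]; simp

theorem hull_eq_of_poly_eq {n m : ℕ} {v : Fin n → ℂ} {w : Fin m → ℂ} (h : poly v = poly w)
    (hne : (poly w).Nonempty) : convexHull ℝ (Set.range v) = convexHull ℝ (Set.range w) := by
  have key : ∀ {l : ℕ} (u : Fin l → ℂ), (poly u).Nonempty →
      closure (poly u) = convexHull ℝ (Set.range u) := by
    intro l u hu
    unfold poly at hu ⊢
    rw [(convex_convexHull ℝ (Set.range u)).closure_interior_eq_closure_of_nonempty_interior hu]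
    exact ((Set.finite_range u).isClosed_convexHull ℝ).closure_eq
  rw [← key v (h ▸ hne), ← key w hne, h]

/-- a strict maximum of a linear functional is a vertex -/
theorem corner {n m : ℕ} {v : Fin n → ℂ} {w : Fin m → ℂ}
    (h : convexHull ℝ (Set.range v) = convexHull ℝ (Set.range w)) (f : ℂ →ₗ[ℝ] ℝ) (e : ℂ)
    (he : e ∈ Set.range w) (hf : ∀ k, w k ≠ e → f (w k) < f e) : e ∈ Set.range v := by
  by_contra hn
  have h1 : convexHull ℝ (Set.range w) ⊆ {z | z ≠ e → f z < f e} := by
    apply convexHull_min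
    · rintro _ ⟨k, rfl⟩ hk
      exact hf k hk
    · rw [convex_iff_forall_pos]
      intro x hx y hy a b ha hb hab hne
      have hxe : f x ≤ f e := by
        by_cases hc : x = e
        · rw [hc]
        · exact (hx hc).le
      have hye : f y ≤ f e := by
        by_cases hc : y = e
        · rw [hc]
        · exact (hy hc).le
      have hfe : f e = a * f e + b * f e := by rw [← add_mul, hab, one_mul]
      rw [map_add, map_smul, map_smul, smul_eq_mul, smul_eq_mul]
      by_cases hc : x = e
      · by_cases hd : y = e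
        · exfalso
          apply hne
          rw [hc, hd, ← add_smul, hab, one_smul]
        · have := hy hd
          nlinarith
      · have := hx hc
        nlinarith
  have h2 : convexHull ℝ (Set.range v) ⊆ {z | f z < f e} := by
    apply convexHull_min
    · rintro _ ⟨j, rfl⟩
      have h3 : v j ∈ convexHull ℝ (Set.range w) := h ▸ subset_convexHull ℝ _ ⟨j, rfl⟩
      exact h1 h3 (fun h4 => hn ⟨j, h4⟩)
    · exact convex_halfSpace_lt f.isLinear _
  have h3 : e ∈ convexHull ℝ (Set.range v) := by
    rw [h]; exact subset_convexHull ℝ _ he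
  have h4 : f e < f e := h2 h3
  exact lt_irrefl _ h4

/-- a weakly convex polygon with interior points visits every vertex once -/
theorem wc_injective {n : ℕ} {v : Fin (n + 3) → ℂ} (hv : WC v) (hne : (poly v).Nonempty)
    (hs : ∀ j, v (j + 1) ≠ v j) : Function.Injective v := by
  have main : ∀ i j : Fin (n + 3), i < j → v i ≠ v j := by
    intro i j hij hE
    set P := v i with hP
    have hji : v j = P := hE.symm
    -- inner against outer
    have hio : ∀ m k : Fin (n + 3), i < m → m < j → (k < i ∨ j < k) →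
        det (v m - P) (v k - P) = 0 := by
      intro m k him hmj hk
      rcases hk with hk | hk
      · have h1 := hv k i m hk him
        have h2 := hv k m j (hk.trans him) hmj
        rw [hji] at h2
        rw [← hP] at h1
        simp only [det, sub_re, sub_im] at h1 h2 ⊢
        linarith
      · have h1 := hv i m k him (hmj.trans hk)
        have h2 := hv m j k hmj hk
        rw [hji] at h2
        rw [← hP] at h1
        simp only [det, sub_re, sub_im] at h1 h2 ⊢
        linarith
    rw [Fin.lt_def] at hij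
    have hjlt := j.isLt
    -- an inner vertex
    have hi1 : ((i + 1 : Fin (n + 3)) : ℕ) = (i : ℕ) + 1 := by
      rw [Fin.val_add_eq_ite]
      have : ((1 : Fin (n + 3)) : ℕ) = 1 := by simp
      rw [this]
      split_ifs <;> omega
    have hinner : i < i + 1 ∧ i + 1 < j := by
      refine ⟨by rw [Fin.lt_def, hi1]; omega, ?_⟩
      rcases lt_or_eq_of_le (show (i : ℕ) + 1 ≤ j by omega) with h | h
      · rw [Fin.lt_def, hi1]; exact h
      · exfalso
        have : i + 1 = j := Fin.ext (by rw [hi1, h])
        exact hs i (by rw [this, hji])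
    set a := v (i + 1) - P with ha
    have ha0 : a ≠ 0 := sub_ne_zero.2 (hs i)
    -- an outer vertex
    have hj1 : ((j + 1 : Fin (n + 3)) : ℕ) = if n + 3 ≤ (j : ℕ) + 1 then 0 else (j : ℕ) + 1 := by
      rw [Fin.val_add_eq_ite]
      have : ((1 : Fin (n + 3)) : ℕ) = 1 := by simp
      rw [this]
      split_ifs <;> omega
    have houter : (j + 1 < i ∨ j < j + 1) := by
      by_cases hc : n + 3 ≤ (j : ℕ) + 1
      · left
        rw [if_pos hc] at hj1
        rw [Fin.lt_def, hj1]
        rcases Nat.eq_zero_or_pos (i : ℕ) with h0 | h0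
        · exfalso
          have : j + 1 = i := Fin.ext (by rw [hj1, h0])
          exact hs j (by rw [this, hji])
        · exact h0
      · right
        rw [if_neg hc] at hj1
        rw [Fin.lt_def, hj1]; omega
    set b := v (j + 1) - P with hb
    have hb0 : b ≠ 0 := by
      rw [hb, ← hji]
      exact sub_ne_zero.2 (hs j)
    have hab : det a b = 0 := hio (i + 1) (j + 1) hinner.1 hinner.2 houter
    have hall : ∀ l, det a (v l - P) = 0 := by
      intro l
      by_cases h1 : l < i ∨ j < l
      · exact hio (i + 1) l hinner.1 hinner.2 h1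
      · push Not at h1
        rcases h1.1.lt_or_eq with h2 | h2
        · rcases h1.2.lt_or_eq with h3 | h3
          · have h4 := hio l (j + 1) h2 h3 houter
            rw [← hb] at h4
            -- both a and v l - P are parallel to b
            have hbn : 0 < b.re ^ 2 + b.im ^ 2 := by
              rcases eq_or_ne b.re 0 with hr | hr
              · have hi : b.im ≠ 0 := fun hi => hb0 (Complex.ext hr hi)
                positivity
              · positivity
            generalize v l - P = c at h4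
            have key : (b.re ^ 2 + b.im ^ 2) * det a c = 0 := by
              simp only [det] at h4 hab ⊢
              linear_combination (c.im * b.im + c.re * b.re) * hab
                - (a.im * b.im + a.re * b.re) * h4
            rcases mul_eq_zero.1 key with h5 | h5
            · exact absurd h5 hbn.ne'
            · exact h5
          · rw [h3, hji, sub_self]; simp [det]
        · rw [← h2, ← hP, sub_self]; simp [det]
    obtain ⟨z, hz⟩ := hne
    have hsub : convexHull ℝ (Set.range v) ⊆ {z | det a (z - P) = 0} := by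
      apply convexHull_min
      · rintro _ ⟨l, rfl⟩
        exact hall l
      · intro x hx y hy s t hs ht hst
        simp only [Set.mem_ofPred_eq] at hx hy ⊢
        have hsP : P = (s : ℂ) * P + (t : ℂ) * P := by
          rw [← add_mul]
          have : (s : ℂ) + t = 1 := by exact_mod_cast hst
          rw [this, one_mul]
        have e : s • x + t • y - P = (s : ℂ) * (x - P) + (t : ℂ) * (y - P) := by
          rw [real_smul, real_smul]
          linear_combination -hsP
        rw [e]
        simp only [det] at hx hy ⊢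
        simp only [add_im, add_re, mul_re, mul_im, ofReal_re, ofReal_im, zero_mul, sub_zero,
          add_zero]
        linear_combination s * hx + t * hy
    obtain ⟨ε, hε, hball⟩ := Metric.isOpen_iff.1 isOpen_interior z hz
    have han : 0 < ‖a‖ := norm_pos_iff.2 ha0
    set d : ℝ := ε / (2 * ‖a‖) with hd
    have hdpos : 0 < d := by positivity
    have hz2 : z + (d : ℂ) * (I * a) ∈ Metric.ball z ε := by
      rw [Metric.mem_ball, dist_eq_norm, add_sub_cancel_left, norm_mul, norm_mul, norm_I, one_mul,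
        norm_real, Real.norm_of_nonneg hdpos.le, hd]
      have : ε / (2 * ‖a‖) * ‖a‖ = ε / 2 := by field_simp
      rw [this]; linarith
    have h1 : det a (z - P) = 0 := hsub (interior_subset hz)
    have h2 : det a (z + (d : ℂ) * (I * a) - P) = 0 := hsub (interior_subset (hball hz2))
    have h3 : det a (z + (d : ℂ) * (I * a) - P) = det a (z - P) + d * (a.re ^ 2 + a.im ^ 2) := by
      simp only [det, sub_re, sub_im, add_re, add_im, mul_re, mul_im, ofReal_re, ofReal_im, I_re,
        I_im]
      ring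
    rw [h1, h2] at h3
    have h4 : 0 < a.re ^ 2 + a.im ^ 2 := by
      rcases eq_or_ne a.re 0 with hr | hr
      · have hi : a.im ≠ 0 := fun hi => ha0 (Complex.ext hr hi)
        positivity
      · positivity
    have : 0 < d * (a.re ^ 2 + a.im ^ 2) := by positivity
    linarith
  intro i j h
  rcases lt_trichotomy i j with hlt | heq | hgt
  · exact absurd h (main i j hlt)
  · exact heq
  · exact absurd h.symm (main j i hgt)

/-- transport of a polygon to a canonical number of vertices -/
theorem transport {m K : ℕ} (h : m = K) (w : Fin (m + 3) → ℂ) : ∃ w' : Fin (K + 3) → ℂ,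
    (CCW w → CCW w') ∧ poly w' = poly w ∧ (∀ ρ, (∀ j, ρ ≤ sl w j) → ∀ j, ρ ≤ sl w' j) ∧
      ∀ R, (∀ i j, ‖w i - w j‖ ≤ R) → ∀ i j, ‖w' i - w' j‖ ≤ R := by
  subst h
  exact ⟨w, id, rfl, fun _ h => h, fun _ h => h⟩

theorem exists_const {M : ℕ → ℕ} {B : ℕ} {P : ℕ → Prop}
    (h : ∀ᶠ i in atTop, M i ≤ B ∧ P i) :
    ∃ K, ∃ φ : ℕ → ℕ, StrictMono φ ∧ ∀ i, M (φ i) = K ∧ P (φ i) := by
  by_contra hcon
  push Not at hcon
  have h1 : ∀ K, ∀ᶠ i in atTop, ¬ (M i = K ∧ P i) := by
    intro K
    by_contra hf
    rw [← Filter.Frequently] at hf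
    obtain ⟨φ, hφ, h2⟩ := extraction_of_frequently_atTop hf
    obtain ⟨i, hi⟩ := hcon K φ hφ
    exact hi (h2 i).1 (h2 i).2
  have h2 : ∀ᶠ i in atTop, ∀ K ∈ Finset.range (B + 1), ¬ (M i = K ∧ P i) :=
    (Finset.eventually_all _).2 fun K _ => h1 K
  obtain ⟨i, hi, hi'⟩ := (h.and h2).exists
  exact hi' (M i) (Finset.mem_range.2 (Nat.lt_succ_of_le hi.1)) ⟨rfl, hi.2⟩

/-- fixing the orientation -/
theorem orient {K m : ℕ} {W : Fin (K + 3) → ℂ} (hW : WC W) (hinj : Function.Injective W)
    {c : Fin m → ℂ} (g : ℂ ≃ᵢ ℂ) (hg : g '' poly c = poly W) {u : ℕ → Fin (K + 3) → ℂ}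
    (hu : Tendsto u atTop (𝓝 W)) (hccw : ∀ i, CCW (u i)) :
    ∃ (X : Fin (K + 3) → ℂ) (x : ℕ → Fin (K + 3) → ℂ), WC X ∧ Function.Injective X ∧
      poly X = poly c ∧ Tendsto x atTop (𝓝 X) ∧ (∀ i, CCW (x i)) ∧
      ∀ i, Congruent (poly (u i)) (poly (x i)) := by
  have hgW : g.symm '' poly W = poly c := by
    rw [← hg, ← Set.image_comp]; simp
  obtain ⟨α, β, hα, hform⟩ := isom_form g.symm
  rcases hform with hform | hform
  · refine ⟨fun j => g.symm (W j), fun i j => g.symm (u i j), ?_, ?_, ?_, ?_, ?_, ?_⟩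
    · simp only [hform]
      exact Cx.rigid hW hα β
    · exact g.symm.injective.comp hinj
    · rw [poly_iso, hgW]
    · rw [tendsto_pi_nhds] at hu ⊢
      intro j
      exact (g.symm.continuous.tendsto _).comp (hu j)
    · intro i
      simp only [hform]
      exact Cx.rigid (hccw i) hα β
    · intro i
      exact ⟨g.symm, (poly_iso _ _).symm⟩
  · refine ⟨fun j => g.symm (W j.rev), fun i j => g.symm (u i j.rev), ?_, ?_, ?_, ?_, ?_, ?_⟩
    · simp only [hform]
      exact Cx.rigid (Cx.reverse hW) hα β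
    · exact (g.symm.injective.comp hinj).comp Fin.rev_injective
    · rw [poly_iso g.symm (fun j => W j.rev), poly_range (range_reverse W), hgW]
    · rw [tendsto_pi_nhds] at hu ⊢
      intro j
      exact (g.symm.continuous.tendsto _).comp (hu j.rev)
    · intro i
      simp only [hform]
      exact Cx.rigid (Cx.reverse (hccw i)) hα β
    · intro i
      refine ⟨g.symm, ?_⟩
      rw [poly_iso g.symm (fun j => u i j.rev), poly_range (range_reverse (u i))]

theorem ccw_injective {n : ℕ} {v : Fin (n + 3) → ℂ} (hv : CCW v) : Function.Injective v := by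
  have main : ∀ i j : Fin (n + 3), i < j → v i ≠ v j := by
    intro i j hij hE
    have hjlt := j.isLt
    rw [Fin.lt_def] at hij
    obtain ⟨k, hk⟩ : ∃ k : Fin (n + 3), k ≠ i ∧ k ≠ j := by
      by_contra hcon
      push Not at hcon
      have h : (Finset.univ : Finset (Fin (n + 3))) ⊆ {i, j} := by
        intro k _
        by_cases hki : k = i
        · simp [hki]
        · simp [hcon k hki]
      have h1 := Finset.card_le_card h
      have h2 : ({i, j} : Finset (Fin (n + 3))).card ≤ 2 := Finset.card_le_two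
      rw [Finset.card_univ, Fintype.card_fin] at h1
      omega
    have h0 : ∀ z : ℂ, det (0 : ℂ) z = 0 ∧ det z 0 = 0 ∧ det z z = 0 := by
      intro z
      simp only [det]
      refine ⟨by simp, by simp, by ring⟩
    rcases lt_trichotomy k i with h | h | h
    · have := hv k i j h hij
      rw [hE, (h0 _).2.2] at this
      exact lt_irrefl _ this
    · exact hk.1 h
    · rcases lt_trichotomy k j with h' | h' | h'
      · have := hv i k j h h'
        rw [hE, sub_self, (h0 _).2.1] at this
        exact lt_irrefl _ this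
      · exact hk.2 h'
      · have := hv i j k hij h'
        rw [hE, sub_self, (h0 _).1] at this
        exact lt_irrefl _ this
  intro i j h
  rcases lt_trichotomy i j with hlt | heq | hgt
  · exact absurd h (main i j hlt)
  · exact heq
  · exact absurd h.symm (main j i hgt)

/-- last normalisation -/
theorem normalise {K : ℕ} {Y : Fin (K + 3) → ℂ} (hY0 : Y 0 = 0) {c : Fin (K + 3)} (hc : Y c = 1)
    {y : ℕ → Fin (K + 3) → ℂ} (hy : Tendsto y atTop (𝓝 Y)) (hccw : ∀ i, CCW (y i)) :
    ∃ q : ℕ → Fin (K + 3) → ℂ, Tendsto q atTop (𝓝 Y) ∧ (∀ i, CCW (q i)) ∧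
      (∀ i, Congruent (poly (y i)) (poly (q i))) ∧ (∀ i, q i 0 = 0) ∧ ∀ i, (q i c).im = 0 := by
  have hc0 : c ≠ 0 := by
    intro h
    rw [h, hY0] at hc
    exact zero_ne_one hc
  set d : ℕ → ℂ := fun i => y i c - y i 0 with hd
  have hd0 : ∀ i, d i ≠ 0 := fun i => sub_ne_zero.2 fun h => hc0 (ccw_injective (hccw i) h)
  set τ : ℕ → ℂ := fun i => (starRingEnd ℂ) (d i) / (‖d i‖ : ℂ) with hτd
  have hτ : ∀ i, ‖τ i‖ = 1 := by
    intro i
    have : ‖d i‖ ≠ 0 := norm_ne_zero_iff.2 (hd0 i)
    rw [hτd]
    simp only [norm_div, norm_conj, norm_real, norm_norm]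
    exact div_self this
  have hlimd : Tendsto d atTop (𝓝 1) := by
    rw [tendsto_pi_nhds] at hy
    have := (hy c).sub (hy 0)
    rw [hc, hY0, sub_zero] at this
    exact this
  have hlimτ : Tendsto τ atTop (𝓝 1) := by
    have h1 : Tendsto (fun i => (starRingEnd ℂ) (d i)) atTop (𝓝 ((starRingEnd ℂ) 1)) :=
      (continuous_conj.tendsto _).comp hlimd
    have h2 : Tendsto (fun i => ((‖d i‖ : ℝ) : ℂ)) atTop (𝓝 ((‖(1 : ℂ)‖ : ℝ) : ℂ)) :=
      (continuous_ofReal.tendsto _).comp hlimd.norm
    have h3 := h1.div h2 (by simp)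
    rw [map_one, norm_one, ofReal_one, div_one] at h3
    exact h3
  refine ⟨fun i j => τ i * y i j + -(τ i * y i 0), ?_, ?_, ?_, ?_, ?_⟩
  · rw [tendsto_pi_nhds] at hy ⊢
    intro j
    have h1 := ((hlimτ.mul (hy j)).add (hlimτ.mul (hy 0)).neg)
    rw [hY0] at h1
    simpa using h1
  · intro i
    exact Cx.rigid (hccw i) (hτ i) _
  · intro i
    refine ⟨rig (hτ i) (-(τ i * y i 0)), ?_⟩
    rw [← poly_rig]
    rfl
  · intro i
    simp only
    ring
  · intro i
    have : τ i * y i c + -(τ i * y i 0) = (‖d i‖ : ℂ) := by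
      have h1 : (‖d i‖ : ℂ) ≠ 0 := by
        exact_mod_cast norm_ne_zero_iff.2 (hd0 i)
      have h2 : τ i * y i c + -(τ i * y i 0) = τ i * d i := by rw [hd]; ring
      rw [h2, hτd]
      simp only
      rw [div_mul_eq_mul_div, div_eq_iff h1, mul_comm, mul_conj, normSq_eq_norm_sq]
      push_cast
      ring
    simp only
    rw [this, ofReal_im]

end Pool.Agent.H5O.H42
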