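import Pool.Agent.Helper42_OPEN.CptA
import Pool.Agent.Helper1_Gen.Main
import Pool.Agent.Helper62_TRI.MainOf
import Pool.Agent.Helper85_TRI.DN

/-!
CPT: convex polygons isospectral to polygons that approach the reference triangle with flat
vertices approach it as well.
-/

set_option autoImplicit false

namespace Pool.Agent.H5O.H42

open MeasureTheory Complex Filter Topology Pool.Agent.H16Iso Pool.Agent.H1Gen Pool.Agent.H5O

theorem crn_ccw : CCW (n := 0 + 3) crn := by
  intro i j k hij hjk
  have hi := i.isLt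
  have hj := j.isLt
  have hk := k.isLt
  rw [Fin.lt_def] at hij hjk
  have e0 : i = 0 := Fin.ext (by simp; omega)
  have e1 : j = 1 := Fin.ext (by simp; omega)
  have e2 : k = 2 := Fin.ext (by simp; omega)
  subst e0 e1 e2
  simp [crn, det]

theorem crn_nonempty : (poly crn).Nonempty := poly_nonempty (m := 0) crn_ccw

theorem crn_isTriangle : Pool.Agent.H62T.IsTriangle (poly crn) := by
  refine ⟨0, 1, ⟨1, Real.sqrt 3⟩, ?_, ?_⟩
  · intro hcol
    have hr : Set.range crn = {0, 1, ⟨1, Real.sqrt 3⟩} := by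
      ext z
      constructor
      · rintro ⟨i, rfl⟩
        fin_cases i <;> simp [crn]
      · intro hz
        simp only [Set.mem_insert_iff, Set.mem_singleton_iff] at hz
        rcases hz with rfl | rfl | rfl
        · exact ⟨0, rfl⟩
        · exact ⟨1, rfl⟩
        · exact ⟨2, rfl⟩
    have h1 := crn_nonempty
    unfold poly at h1
    rw [interior_convexHull_nonempty_iff_affineSpan_eq_top, hr] at h1
    have h2 := hcol
    rw [collinear_iff_finrank_le_one, ← direction_affineSpan, h1,
      AffineSubspace.direction_top, finrank_top, Complex.finrank_real_complex] at h2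
    norm_num at h2
  · unfold poly
    congr 2
    ext z
    constructor
    · rintro ⟨i, rfl⟩
      fin_cases i <;> simp [crn]
    · intro hz
      simp only [Set.mem_insert_iff, Set.mem_singleton_iff] at hz
      rcases hz with rfl | rfl | rfl
      · exact ⟨0, rfl⟩
      · exact ⟨1, rfl⟩
      · exact ⟨2, rfl⟩

theorem poly_isConvexPolygon {n : ℕ} {v : Fin n → ℂ} (h : (poly v).Nonempty) :
    IsConvexPolygon (poly v) := by
  refine ⟨Finset.univ.image v, ?_, ?_⟩
  · intro hcol
    rw [Finset.coe_image, Finset.coe_univ, Set.image_univ] at hcol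
    unfold poly at h
    rw [interior_convexHull_nonempty_iff_affineSpan_eq_top] at h
    rw [collinear_iff_finrank_le_one, ← direction_affineSpan, h,
      AffineSubspace.direction_top, finrank_top, Complex.finrank_real_complex] at hcol
    norm_num at hcol
  · rw [Finset.coe_image, Finset.coe_univ, Set.image_univ]
    rfl

theorem zero_mem_of_poly {n : ℕ} {v : Fin n → ℂ} (h : poly v = poly crn) :
    (0 : ℂ) ∈ Set.range v := by
  have hull := hull_eq_of_poly_eq h crn_nonempty
  apply corner hull (-Complex.reLm) 0 ⟨0, rfl⟩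
  intro k hk
  fin_cases k
  · exact absurd rfl hk
  · simp [crn]
  · simp [crn]

theorem one_mem_of_poly {n : ℕ} {v : Fin n → ℂ} (h : poly v = poly crn) :
    (1 : ℂ) ∈ Set.range v := by
  have hull := hull_eq_of_poly_eq h crn_nonempty
  apply corner hull (Complex.reLm - Complex.imLm) 1 ⟨1, rfl⟩
  intro k hk
  fin_cases k
  · simp [crn]
  · exact absurd rfl hk
  · simp [crn]

/-- existence of a good limit -/
theorem limit_exists {K : ℕ} {R δ ρ : ℝ} (hR : 0 < R) (hδ : 0 < δ) (hρ : 0 < ρ)
    {u : ℕ → Fin (K + 3) → ℂ} (hu : ∀ i, CCW (u i)) (hu0 : ∀ i, u i 0 = 0)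
    (hd : ∀ i a b, ‖u i a - u i b‖ ≤ R) (hb : ∀ i, ∃ p, Metric.ball p δ ⊆ poly (u i))
    (hs : ∀ i j, ρ ≤ sl (u i) j) :
    ∃ (W : Fin (K + 3) → ℂ) (φ : ℕ → ℕ), StrictMono φ ∧ Tendsto (fun i => u (φ i)) atTop (𝓝 W) ∧
      WC W ∧ (poly W).Nonempty ∧ Function.Injective W := by
  choose p hp using hb
  have hnorm : ∀ i a, ‖u i a‖ ≤ R := by
    intro i a
    have := hd i a 0
    rwa [hu0, sub_zero] at this
  have hball : ∀ i, u i ∈ Metric.closedBall (0 : Fin (K + 3) → ℂ) R := by
    intro i
    rw [mem_closedBall_zero_iff, pi_norm_le_iff_of_nonneg hR.le]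
    exact hnorm i
  have hpball : ∀ i, p i ∈ Metric.closedBall (0 : ℂ) R := by
    intro i
    have h1 : p i ∈ poly (u i) := hp i (Metric.mem_ball_self hδ)
    have h2 : p i ∈ convexHull ℝ (Set.range (u i)) := interior_subset h1
    have h3 : convexHull ℝ (Set.range (u i)) ⊆ Metric.closedBall (0 : ℂ) R := by
      apply convexHull_min _ (convex_closedBall _ _)
      rintro _ ⟨a, rfl⟩
      rw [mem_closedBall_zero_iff]
      exact hnorm i a
    exact h3 h2
  obtain ⟨⟨W, q⟩, -, φ, hφ, hlim⟩ :=
    ((isCompact_closedBall (0 : Fin (K + 3) → ℂ) R).prod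
      (isCompact_closedBall (0 : ℂ) R)).tendsto_subseq
      (x := fun i => (u i, p i)) fun i => ⟨hball i, hpball i⟩
  have hlim1 : Tendsto (fun i => u (φ i)) atTop (𝓝 W) := (continuous_fst.tendsto _).comp hlim
  have hlim2 : Tendsto (fun i => p (φ i)) atTop (𝓝 q) := (continuous_snd.tendsto _).comp hlim
  have hclosed : IsClosed (convexHull ℝ (Set.range W)) :=
    (Set.finite_range W).isClosed_convexHull ℝ
  have hhull : ∀ z ∈ Metric.ball q δ, z ∈ convexHull ℝ (Set.range W) := by
    intro z hz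
    have hne : (convexHull ℝ (Set.range W)).Nonempty :=
      ⟨W 0, subset_convexHull ℝ _ ⟨0, rfl⟩⟩
    rw [hclosed.mem_iff_infDist_zero hne]
    apply le_antisymm _ Metric.infDist_nonneg
    have h1 : Tendsto (fun N => ‖u (φ N) - W‖) atTop (𝓝 0) :=
      tendsto_iff_norm_sub_tendsto_zero.1 hlim1
    have h2 : ∀ᶠ N in atTop, z ∈ Metric.ball (p (φ N)) δ := by
      have h3 : Tendsto (fun N => dist z (p (φ N))) atTop (𝓝 (dist z q)) :=
        tendsto_const_nhds.dist hlim2
      exact h3.eventually_lt_const (Metric.mem_ball.1 hz)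
    refine ge_of_tendsto h1 ?_
    filter_upwards [h2] with N hN
    exact hull_dist (interior_subset (hp (φ N) hN))
  have hne : (poly W).Nonempty :=
    ⟨q, mem_interior_iff_mem_nhds.2 (Filter.mem_of_superset (Metric.ball_mem_nhds q hδ) hhull)⟩
  have hweak : WC W := by
    intro i j k hij hjk
    have hcont : Continuous fun x : Fin (K + 3) → ℂ => det (x j - x i) (x k - x i) := by
      unfold det
      fun_prop
    have h1 := (hcont.tendsto W).comp hlim1
    refine ge_of_tendsto' h1 fun N => ?_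
    exact (hu (φ N) i j k hij hjk).le
  refine ⟨W, φ, hφ, hlim1, hweak, hne, wc_injective hweak hne ?_⟩
  intro j hj
  have hcont : Continuous fun x : Fin (K + 3) → ℂ => sl x j := by
    unfold sl
    fun_prop
  have h1 := (hcont.tendsto W).comp hlim1
  have h2 : ρ ≤ sl W j := ge_of_tendsto' h1 fun N => hs (φ N) j
  unfold sl at h2
  rw [hj, sub_self, norm_zero] at h2
  linarith

theorem cpt (hRate : RateStatement) (hHinv : HinvStatement) : CptStatement := by
  intro N p hp v hv hccw M w hw hiso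
  obtain ⟨hp1, hp2, hp3, hp4⟩ := hp
  have hne : (poly p).Nonempty := hp3 ▸ crn_nonempty
  set c : ℕ → ℝ := fun k => dirEig (poly crn) k with hcdef
  have hlim : ∀ k, Tendsto (fun i => dirEig (poly (v i)) k) atTop (𝓝 (c k)) := by
    intro k
    rw [hcdef]
    simp only
    rw [← hp3]
    exact dirEig_tendsto hv hne k
  obtain ⟨Md⟩ := model_exists
  have hc : Tendsto c atTop atTop := tendsto_dirEig Md (m := 0) crn_ccw
  obtain ⟨R, hR, δ, hδ, K₀, hbd⟩ := bounds hc
  have hev1 : ∀ᶠ i in atTop, ∀ k < K₀, |dirEig (poly (v i)) k - c k| < 1 := by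
    have h1 : ∀ k, ∀ᶠ i in atTop, |dirEig (poly (v i)) k - c k| < 1 := fun k => by
      have h2 := (Metric.tendsto_nhds.1 (hlim k)) 1 one_pos
      filter_upwards [h2] with i hi
      rwa [Real.dist_eq] at hi
    have h3 : ∀ᶠ i in atTop, ∀ k ∈ Finset.range K₀, |dirEig (poly (v i)) k - c k| < 1 :=
      (Finset.eventually_all _).2 fun k _ => h1 k
    filter_upwards [h3] with i hi k hk
    exact hi k (Finset.mem_range.2 hk)
  -- sides of `v i`
  have hslc : ∀ j, Continuous fun x : Fin (N + 3) → ℂ => sl x j := by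
    intro j
    unfold sl
    fun_prop
  have hsllim : ∀ j, Tendsto (fun i => sl (v i) j) atTop (𝓝 (sl p j)) :=
    fun j => ((hslc j).tendsto p).comp hv
  have hslpos : ∀ j, 0 < sl p j := by
    intro j
    unfold sl
    rw [norm_pos_iff, sub_ne_zero]
    intro h
    have h1 := hp2 h
    have h2 := congrArg Fin.val h1
    rw [Fin.val_add_eq_ite] at h2
    have h3 : ((1 : Fin (N + 3)) : ℕ) = 1 := by simp
    rw [h3] at h2
    have := j.isLt
    split_ifs at h2 <;> omega
  obtain ⟨j0, hj0⟩ := Finite.exists_min fun j => sl p j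
  set r : ℝ := min δ (sl p j0 / 2) with hr
  have hj0pos := hslpos j0
  have hrpos : 0 < r := lt_min hδ (by linarith)
  have hev2 : ∀ᶠ i in atTop, ∀ j, r ≤ sl (v i) j := by
    rw [eventually_all]
    intro j
    have h1 : r < sl p j := by
      have h2 : r ≤ sl p j0 / 2 := min_le_right _ _
      have := hj0 j
      linarith
    filter_upwards [(hsllim j).eventually_const_lt h1] with i hi
    exact hi.le
  obtain ⟨ρ, hρ, hrate⟩ := hRate r R hrpos hR
  -- perimeter
  have hperlim : Tendsto (fun i => per (v i)) atTop (𝓝 (per p)) := by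
    unfold per
    exact tendsto_finsetSum _ fun j _ => hsllim j
  have hev3 : ∀ᶠ i in atTop, per (v i) < per p + 1 := hperlim.eventually_lt_const (by linarith)
  have hgood : ∀ᶠ i in atTop, M i ≤ ⌈(per p + 1) / ρ⌉₊ ∧ ((∀ j, ρ ≤ sl (w i) j) ∧
      (∀ a b, ‖w i a - w i b‖ ≤ R) ∧ ∃ q, Metric.ball q δ ⊆ poly (w i)) := by
    filter_upwards [hev1, hev2, hev3] with i h1 h2 h3
    obtain ⟨hv1, hv2⟩ := hbd (v i) (by omega) (hccw i) h1
    obtain ⟨hw1, hw2⟩ := hbd (w i) (by omega) (hw i) (by
      intro k hk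
      rw [← hiso i k]
      exact h1 k hk)
    have hsub : ∀ {P : Set ℂ}, (∃ q, Metric.ball q δ ⊆ P) → ∃ q, Metric.ball q r ⊆ P := by
      rintro P ⟨q, hq⟩
      exact ⟨q, (Metric.ball_subset_ball (min_le_left _ _)).trans hq⟩
    have hside := hrate N (M i) (v i) (w i) (hccw i) (hw i) h2 (hsub hv2) hv1 (hsub hw2) hw1
      (hiso i)
    refine ⟨?_, hside, hw1, hw2⟩
    have hper := (hHinv N (M i) (v i) (w i) (hccw i) (hw i) (hiso i)).2
    have h4 : ((M i : ℝ) + 3) * ρ ≤ per (w i) := by
      unfold per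
      calc ((M i : ℝ) + 3) * ρ = ∑ _j : Fin (M i + 3), ρ := by
            rw [Finset.sum_const, Finset.card_univ, Fintype.card_fin, nsmul_eq_mul]
            push_cast
            ring
        _ ≤ _ := Finset.sum_le_sum fun j _ => hside j
    have h5 : (M i : ℝ) ≤ (per p + 1) / ρ := by
      rw [le_div_iff₀ hρ]
      nlinarith
    exact_mod_cast h5.trans (Nat.le_ceil _)
  obtain ⟨K, φ, hφ, hK⟩ := exists_const hgood
  choose w1 h1 h2 h3 h4 using fun i => transport (hK i).1 (w (φ i))
  -- translate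
  set u : ℕ → Fin (K + 3) → ℂ := fun i j => 1 * w1 i j + -(w1 i 0) with hu
  have hone : ‖(1 : ℂ)‖ = 1 := norm_one
  have huccw : ∀ i, CCW (u i) := fun i => Cx.rigid (h1 i (hw _)) hone _
  have hudiff : ∀ i a b, u i a - u i b = w1 i a - w1 i b := by
    intro i a b
    rw [hu]
    ring
  have hupoly : ∀ i, poly (u i) = rig hone (-(w1 i 0)) '' poly (w1 i) := by
    intro i
    rw [← poly_rig]
    rfl
  have hueig : ∀ i k, dirEig (poly (u i)) k = dirEig (poly (v (φ i))) k := by
    intro i k
    rw [hupoly, dirEig_rig, h2, hiso (φ i) k]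
  obtain ⟨W, ψ, hψ, hlimW, hWC, hWne, hWinj⟩ := limit_exists hR hδ hρ huccw
    (fun i => by rw [hu]; ring)
    (fun i a b => by rw [hudiff]; exact h4 i R (hK i).2.2.1 a b)
    (fun i => by
      obtain ⟨q, hq⟩ := (hK i).2.2.2
      refine ⟨q + -(w1 i 0), ?_⟩
      rw [hupoly, h2]
      intro z hz
      refine ⟨z + w1 i 0, hq ?_, ?_⟩
      · rw [Metric.mem_ball, dist_eq_norm] at hz ⊢
        convert hz using 2
        ring
      · rw [rig_apply]; ring)
    (fun i j => by
      have h5 := h3 i ρ (hK i).2.1 j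
      unfold sl at h5 ⊢
      rw [hudiff]
      exact h5)
  have hWeig : ∀ k, dirEig (poly crn) k = dirEig (poly W) k := by
    intro k
    have e1 := dirEig_tendsto hlimW hWne k
    have e2 : Tendsto (fun i => dirEig (poly (u (ψ i))) k) atTop (𝓝 (c k)) := by
      have e3 : (fun i => dirEig (poly (u (ψ i))) k)
          = (fun i => dirEig (poly (v i)) k) ∘ (φ ∘ ψ) := by
        funext i
        exact hueig (ψ i) k
      rw [e3]
      exact (hlim k).comp (hφ.comp hψ).tendsto_atTop
    exact tendsto_nhds_unique e2 e1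
  obtain ⟨g, hg⟩ := Pool.Agent.H62T.main_of Pool.Agent.H62T.H85.dn (poly crn) (poly W)
    crn_isTriangle (poly_isConvexPolygon hWne) hWeig
  obtain ⟨X, x, hXWC, hXinj, hXpoly, hxlim, hxccw, hxcong⟩ :=
    orient hWC hWinj g hg hlimW (fun i => huccw (ψ i))
  obtain ⟨s, hs⟩ := zero_mem_of_poly hXpoly
  set Y : Fin (K + 3) → ℂ := fun j => X (j + s) with hY
  have hYpoly : poly Y = poly crn := by
    rw [hY, poly_range (range_rotate X s), hXpoly]
  have hY0 : Y 0 = 0 := by rw [hY]; simp only [zero_add]; exact hs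
  have hYinj : Function.Injective Y := fun a b h => add_right_cancel (hXinj h)
  obtain ⟨e, he⟩ := one_mem_of_poly hYpoly
  have hylim : Tendsto (fun i => fun j => x i (j + s)) atTop (𝓝 Y) := by
    rw [tendsto_pi_nhds] at hxlim ⊢
    intro j
    exact hxlim (j + s)
  obtain ⟨q, hq1, hq2, hq3, hq4, hq5⟩ := normalise hY0 he hylim
    (fun i => Cx.rotate (hxccw i) s)
  refine ⟨K, φ ∘ ψ, q, Y, hφ.comp hψ, ⟨Cx.rotate hXWC s, hYinj, hYpoly, hY0⟩, hq1, hq2, ?_, hq4, ?_⟩
  · intro i
    have c1 : Congruent (poly (w ((φ ∘ ψ) i))) (poly (u (ψ i))) := by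
      refine ⟨rig hone (-(w1 (ψ i) 0)), ?_⟩
      rw [hupoly, h2]
      rfl
    have c2 : Congruent (poly (x i)) (poly (fun j => x i (j + s))) := by
      rw [poly_range (range_rotate (x i) s)]
      exact congruent_refl _
    exact congruent_trans (congruent_trans c1 (hxcong i)) (congruent_trans c2 (hq3 i))
  · intro c' hc' i
    have : c' = e := hYinj (hc'.trans he.symm)
    rw [this]
    exact hq5 i

end Pool.Agent.H5O.H42
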