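import Pool.Agent.Helper5_OPEN.Stmt
import Pool.Agent.Helper1_Gen.EfBasic

/-!
EXPL: the boundary densities on the three sides.
-/

set_option autoImplicit false

namespace Pool.Agent.H5O.H42

open MeasureTheory Complex Filter Topology Pool.Agent.H16Iso Pool.Agent.H1Gen Pool.Agent.H5O

theorem efz_explicit (x y : ℤ) (z : ℂ) : fderiv ℝ (ef x y) z 1
    = -(Real.pi / 3) * ((x + 2 * y) * (Real.sin (Real.pi * x * z.im)
        * Real.cos (Real.pi * (x + 2 * y) * (1 - z.re) / 3))
      - (-1) ^ (x + y) * ((2 * x + y) * (Real.sin (Real.pi * y * z.im)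
        * Real.cos (Real.pi * (2 * x + y) * (1 - z.re) / 3)))
      - (-1) ^ y * ((x - y) * (Real.sin (Real.pi * (x + y) * z.im)
        * Real.cos (Real.pi * (x - y) * (1 - z.re) / 3)))) := by
  rw [ef_fderiv_one]
  unfold efz efg tp
  simp only [add_zero, zero_add, Real.sin_add_pi_div_two]
  ring

theorem efx_explicit (x y : ℤ) (z : ℂ) : fderiv ℝ (ef x y) z I
    = Real.pi * (x * (Real.cos (Real.pi * x * z.im)
        * Real.sin (Real.pi * (x + 2 * y) * (1 - z.re) / 3))
      - (-1) ^ (x + y) * (y * (Real.cos (Real.pi * y * z.im)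
        * Real.sin (Real.pi * (2 * x + y) * (1 - z.re) / 3)))
      - (-1) ^ y * ((x + y) * (Real.cos (Real.pi * (x + y) * z.im)
        * Real.sin (Real.pi * (x - y) * (1 - z.re) / 3)))) := by
  rw [ef_fderiv_I]
  unfold efx efg tp
  simp only [add_zero, zero_add, Real.sin_add_pi_div_two]
  ring

theorem cos_int_pi_mul_one_sub (x : ℤ) (t : ℝ) :
    Real.cos (Real.pi * x * (1 - t)) = (-1) ^ x * Real.cos (Real.pi * x * t) := by
  have h1 : Real.pi * x * (1 - t) = (x : ℝ) * Real.pi - Real.pi * x * t := by ring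
  rw [h1, Real.cos_int_mul_pi_sub]

theorem prod_sc (a b : ℝ) :
    Real.sin a * Real.cos b = (Real.sin (a + b) + Real.sin (a - b)) / 2 := by
  rw [Real.sin_add, Real.sin_sub]; ring

theorem prod_cs (a b : ℝ) :
    Real.cos a * Real.sin b = (Real.sin (a + b) - Real.sin (a - b)) / 2 := by
  rw [Real.sin_add, Real.sin_sub]; ring

theorem sqrt3_div (t : ℝ) : Real.sqrt 3 * t / Real.sqrt 3 = t := by
  have : Real.sqrt 3 ≠ 0 := by positivity
  field_simp

theorem negone_sq (n : ℤ) : ((-1 : ℝ) ^ n) ^ 2 = 1 := by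
  rw [sq, ← mul_zpow]; norm_num

theorem negone_mul (n : ℤ) : ((-1 : ℝ) ^ n) * (-1 : ℝ) ^ n = 1 := by
  rw [← mul_zpow]; norm_num

theorem expl : ExplStatement := by
  intro i a b hx hy
  set x : ℤ := (i.1.1 : ℤ) with hxd
  set y : ℤ := (i.1.2 : ℤ) with hyd
  have hxr : (x : ℝ) = (a : ℝ) + b := by rw [hxd, hx]; push_cast; ring
  have hyr : (y : ℝ) = (b : ℝ) := by rw [hyd, hy]; push_cast; ring
  have h3 : Real.sqrt 3 ≠ 0 := by positivity
  have hpx : ((-1 : ℝ)) ^ (x + y) = (-1) ^ x * (-1) ^ y := zpow_add₀ (by norm_num) x y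
  have hyy := negone_mul y
  have hxx := negone_mul x
  refine ⟨?_, ?_, ?_⟩
  · intro X _
    unfold EE
    simp only [sqrt3_div]
    have e1 : fderiv ℝ (ef x y) (⟨1, 1 - X⟩ : ℂ) 1
        = -(Real.pi / 3) * ((-1) ^ x * D1 a b X) := by
      rw [efz_explicit]
      simp only [sub_self, mul_zero, zero_div, Real.cos_zero, mul_one]
      have f1 := sin_int_pi_mul_one_sub x X
      have f2 := sin_int_pi_mul_one_sub y X
      have f3 := sin_int_pi_mul_one_sub (x + y) X
      push_cast at f1 f2 f3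
      rw [f1, f2, f3, hpx]
      unfold D1
      rw [hxr, hyr]
      have g1 : Real.pi * ((a : ℝ) + b + b) * X = Real.pi * (a + 2 * b) * X := by ring
      rw [g1]
      linear_combination
        (-(Real.pi / 3) * ((-1) ^ x * ((2 * a + 3 * b) * Real.sin (Real.pi * b * X)
          + a * Real.sin (Real.pi * (a + 2 * b) * X)))) * hyy
    have e2 : fderiv ℝ (ef x y) (⟨1, 1 - X⟩ : ℂ) I = 0 := by
      rw [efx_explicit]
      simp
    rw [e1, e2]
    field_simp
    linear_combination (9 * Real.pi ^ 2 * D1 a b X ^ 2) * hxx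
  · intro s _
    unfold EE
    simp only [sqrt3_div]
    have hq : (⟨1 - s / 2, 1 - s / 2⟩ : ℂ).im = 1 - s / 2 := rfl
    have r1 : Real.pi * (x + 2 * y) * (1 - (1 - s / 2)) / 3 = Real.pi * (x + 2 * y) * s / 6 := by
      ring
    have r2 : Real.pi * (2 * x + y) * (1 - (1 - s / 2)) / 3 = Real.pi * (2 * x + y) * s / 6 := by
      ring
    have r3 : Real.pi * (x - y) * (1 - (1 - s / 2)) / 3 = Real.pi * (x - y) * s / 6 := by
      ring
    have f1 := sin_int_pi_mul_one_sub x (s / 2)
    have f2 := sin_int_pi_mul_one_sub y (s / 2)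
    have f3 := sin_int_pi_mul_one_sub (x + y) (s / 2)
    have k1 := cos_int_pi_mul_one_sub x (s / 2)
    have k2 := cos_int_pi_mul_one_sub y (s / 2)
    have k3 := cos_int_pi_mul_one_sub (x + y) (s / 2)
    push_cast at f1 f2 f3 k1 k2 k3
    have e1 : fderiv ℝ (ef x y) (⟨1 - s / 2, 1 - s / 2⟩ : ℂ) 1
        = -(Real.pi / 2) * ((-1) ^ x * D2 a b s) := by
      rw [efz_explicit]
      simp only [r1, r2, r3]
      rw [f1, f2, f3, hpx]
      have p1 : Real.sin (Real.pi * x * (s / 2)) * Real.cos (Real.pi * (x + 2 * y) * s / 6)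
          = (Real.sin (Real.pi * (2 * a + 3 * b) * s / 3)
            + Real.sin (Real.pi * a * s / 3)) / 2 := by
        rw [prod_sc, hxr, hyr]
        congr 2 <;> congr 1 <;> ring
      have p2 : Real.sin (Real.pi * y * (s / 2)) * Real.cos (Real.pi * (2 * x + y) * s / 6)
          = (Real.sin (Real.pi * (a + 3 * b) * s / 3)
            - Real.sin (Real.pi * a * s / 3)) / 2 := by
        rw [prod_sc, hxr, hyr]
        have q1 : Real.pi * (b : ℝ) * (s / 2) + Real.pi * (2 * ((a : ℝ) + b) + b) * s / 6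
          = Real.pi * (a + 3 * b) * s / 3 := by ring
        have q2 : Real.pi * (b : ℝ) * (s / 2) - Real.pi * (2 * ((a : ℝ) + b) + b) * s / 6
          = -(Real.pi * a * s / 3) := by ring
        rw [q1, q2, Real.sin_neg]
        ring
      have p3 : Real.sin (Real.pi * (x + y) * (s / 2)) * Real.cos (Real.pi * (x - y) * s / 6)
          = (Real.sin (Real.pi * (2 * a + 3 * b) * s / 3)
            + Real.sin (Real.pi * (a + 3 * b) * s / 3)) / 2 := by
        rw [prod_sc, hxr, hyr]
        congr 2 <;> congr 1 <;> ring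
      trans (Real.pi / 3) * (-1) ^ x * ((x + 2 * y) *
          (Real.sin (Real.pi * x * (s / 2)) * Real.cos (Real.pi * (x + 2 * y) * s / 6))
        - (2 * x + y) * ((-1) ^ y * (-1) ^ y) *
          (Real.sin (Real.pi * y * (s / 2)) * Real.cos (Real.pi * (2 * x + y) * s / 6))
        - (x - y) * ((-1) ^ y * (-1) ^ y) *
          (Real.sin (Real.pi * (x + y) * (s / 2)) * Real.cos (Real.pi * (x - y) * s / 6)))
      · ring
      rw [hyy, p1, p2, p3, hxr, hyr]
      unfold D2
      ring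
    have e2 : fderiv ℝ (ef x y) (⟨1 - s / 2, 1 - s / 2⟩ : ℂ) I
        = (Real.pi / 2) * ((-1) ^ x * D2 a b s) := by
      rw [efx_explicit]
      simp only [r1, r2, r3]
      rw [k1, k2, k3, hpx]
      have p1 : Real.cos (Real.pi * x * (s / 2)) * Real.sin (Real.pi * (x + 2 * y) * s / 6)
          = (Real.sin (Real.pi * (2 * a + 3 * b) * s / 3)
            - Real.sin (Real.pi * a * s / 3)) / 2 := by
        rw [prod_cs, hxr, hyr]
        congr 2 <;> congr 1 <;> ring
      have p2 : Real.cos (Real.pi * y * (s / 2)) * Real.sin (Real.pi * (2 * x + y) * s / 6)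
          = (Real.sin (Real.pi * (a + 3 * b) * s / 3)
            + Real.sin (Real.pi * a * s / 3)) / 2 := by
        rw [prod_cs, hxr, hyr]
        have q1 : Real.pi * (b : ℝ) * (s / 2) + Real.pi * (2 * ((a : ℝ) + b) + b) * s / 6
          = Real.pi * (a + 3 * b) * s / 3 := by ring
        have q2 : Real.pi * (b : ℝ) * (s / 2) - Real.pi * (2 * ((a : ℝ) + b) + b) * s / 6
          = -(Real.pi * a * s / 3) := by ring
        rw [q1, q2, Real.sin_neg]
        ring
      have p3 : Real.cos (Real.pi * (x + y) * (s / 2)) * Real.sin (Real.pi * (x - y) * s / 6)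
          = (Real.sin (Real.pi * (2 * a + 3 * b) * s / 3)
            - Real.sin (Real.pi * (a + 3 * b) * s / 3)) / 2 := by
        rw [prod_cs, hxr, hyr]
        congr 2 <;> congr 1 <;> ring
      trans Real.pi * (-1) ^ x * (x *
          (Real.cos (Real.pi * x * (s / 2)) * Real.sin (Real.pi * (x + 2 * y) * s / 6))
        - y * ((-1) ^ y * (-1) ^ y) *
          (Real.cos (Real.pi * y * (s / 2)) * Real.sin (Real.pi * (2 * x + y) * s / 6))
        - (x + y) * ((-1) ^ y * (-1) ^ y) *
          (Real.cos (Real.pi * (x + y) * (s / 2)) * Real.sin (Real.pi * (x - y) * s / 6)))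
      · ring
      rw [hyy, p1, p2, p3, hxr, hyr]
      unfold D2
      ring
    rw [e1, e2]
    trans 8 * Real.pi ^ 2 / (9 * Real.sqrt 3) * D2 a b s ^ 2 * ((-1) ^ x * (-1) ^ x)
    · field_simp
      ring
    · rw [hxx, mul_one]
  · intro t _
    unfold EE
    simp only [zero_div]
    have e1 : fderiv ℝ (ef x y) (⟨1 - t, 0⟩ : ℂ) 1 = 0 := by
      rw [efz_explicit]
      simp
    have hpa : ((-1 : ℝ)) ^ a * (-1) ^ b = (-1) ^ x := by
      rw [← pow_add, hxd, hx]
      norm_cast
    have hpb : ((-1 : ℝ)) ^ b = (-1) ^ y := by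
      rw [hyd, hy]; norm_cast
    have hbb : ((-1 : ℝ)) ^ b * (-1) ^ b = 1 := by rw [hpb]; exact hyy
    have e2 : fderiv ℝ (ef x y) (⟨1 - t, 0⟩ : ℂ) I = -Real.pi * ((-1) ^ x * D3 a b t) := by
      rw [efx_explicit]
      simp only [mul_zero, Real.cos_zero, one_mul, sub_sub_cancel]
      rw [hpx]
      unfold D3
      have q1 : Real.pi * ((x : ℝ) + 2 * y) * t / 3 = Real.pi * (a + 3 * b) * t / 3 := by
        rw [hxr, hyr]; ring
      have q2 : Real.pi * (2 * (x : ℝ) + y) * t / 3 = Real.pi * (2 * a + 3 * b) * t / 3 := by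
        rw [hxr, hyr]; ring
      have q3 : Real.pi * ((x : ℝ) - y) * t / 3 = Real.pi * a * t / 3 := by
        rw [hxr, hyr]; ring
      rw [q1, q2, q3]
      have hpab : ((-1 : ℝ)) ^ (a + b) = (-1) ^ a * (-1) ^ b := pow_add _ _ _
      rw [hpab, ← hpa, ← hpb, hxr, hyr]
      have haa : ((-1 : ℝ)) ^ a * (-1) ^ a = 1 := by rw [← mul_pow]; norm_num
      linear_combination (Real.pi * (((-1) ^ b * (a + 2 * b)) * Real.sin (Real.pi * a * t / 3))
        ) * haa - (Real.pi * (a + b) * Real.sin (Real.pi * (a + 3 * b) * t / 3)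
          * ((-1) ^ a * (-1) ^ a)) * hbb
        - (Real.pi * (a + b) * Real.sin (Real.pi * (a + 3 * b) * t / 3)) * haa
    rw [e1, e2]
    trans 8 * Real.pi ^ 2 / (9 * Real.sqrt 3) * D3 a b t ^ 2 * ((-1) ^ x * (-1) ^ x)
    · field_simp
      ring
    · rw [hxx, mul_one]

end Pool.Agent.H5O.H42
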