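import Pool.Agent.Helper5_OPEN.Stmt
import Pool.Agent.Helper69_Weyl.Divisor

/-!
NT: eigenvalues with one representation `(a, b)` with `a` fixed and `b` large such that all the
other representations have large entries.
-/

set_option autoImplicit false

namespace Pool.Agent.H5O.H42

open Finset

/-- other representations of the same number -/
structure Good (X a b a' b' : ℕ) : Prop where
  h1 : 1 ≤ a
  hX : a ^ 2 + 1 ≤ X
  hb : X ≤ b
  hb2 : b ≤ 2 * X
  h2 : 1 ≤ a'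
  h3 : 1 ≤ b'
  eq : a' ^ 2 + 3 * a' * b' + 3 * b' ^ 2 = a ^ 2 + 3 * a * b + 3 * b ^ 2
  ne : ¬ (a' = a ∧ b' = b)

theorem Good.idc {X a b a' b' : ℕ} (h : Good X a b a' b') :
    (a' : ℤ) ^ 2 + 3 * ((a' : ℤ) + 2 * b') ^ 2 = (a : ℤ) ^ 2 + 3 * ((a : ℤ) + 2 * b) ^ 2 := by
  have := h.eq
  zify at this
  linear_combination 4 * this

theorem Good.aX {X a b a' b' : ℕ} (h : Good X a b a' b') : a ≤ X := by
  have := h.hX
  nlinarith [h.h1]

theorem Good.lt {X a b a' b' : ℕ} (h : Good X a b a' b') : a < a' := by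
  have e := h.idc
  by_contra hle
  push Not at hle
  rcases hle.lt_or_eq with hlt | heq
  · -- c' > c
    have hc : (a : ℤ) + 2 * b < a' + 2 * b' := by
      by_contra hh
      push Not at hh
      have h1 : (a' : ℤ) ^ 2 < (a : ℤ) ^ 2 := by
        have : (a' : ℤ) < a := by exact_mod_cast hlt
        have h0 : (0 : ℤ) ≤ a' := by positivity
        nlinarith
      have h2 : ((a' : ℤ) + 2 * b') ^ 2 ≤ ((a : ℤ) + 2 * b) ^ 2 := by
        have h0 : (0 : ℤ) ≤ a' + 2 * b' := by positivity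
        nlinarith
      linarith
    have h3 : ((a : ℤ) + 2 * b + 1) ^ 2 ≤ ((a' : ℤ) + 2 * b') ^ 2 := by
      have h0 : (0 : ℤ) ≤ a + 2 * b + 1 := by positivity
      have : (a : ℤ) + 2 * b + 1 ≤ a' + 2 * b' := by linarith
      nlinarith
    have h4 : (a : ℤ) ^ 2 + 1 ≤ X := by exact_mod_cast h.hX
    have h5 : (X : ℤ) ≤ b := by exact_mod_cast h.hb
    have h6 : (0 : ℤ) ≤ a := by positivity
    nlinarith [sq_nonneg (a' : ℤ)]
  · apply h.ne
    refine ⟨heq, ?_⟩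
    rw [heq] at e
    have h1 : ((a : ℤ) + 2 * b') ^ 2 = ((a : ℤ) + 2 * b) ^ 2 := by linarith
    have h2 : (a : ℤ) + 2 * b' = (a : ℤ) + 2 * b := by
      rw [sq_eq_sq₀ (by positivity) (by positivity)] at h1
      exact h1
    have : (b' : ℤ) = b := by linarith
    exact_mod_cast this

theorem Good.clt {X a b a' b' : ℕ} (h : Good X a b a' b') : a' + 2 * b' < a + 2 * b := by
  have e := h.idc
  have hl : (a : ℤ) < a' := by exact_mod_cast h.lt
  have h1 : (a : ℤ) ^ 2 < (a' : ℤ) ^ 2 := by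
    have h0 : (0 : ℤ) ≤ a := by positivity
    nlinarith
  have h2 : ((a' : ℤ) + 2 * b') ^ 2 < ((a : ℤ) + 2 * b) ^ 2 := by linarith
  have h3 : (a' : ℤ) + 2 * b' < (a : ℤ) + 2 * b := by
    apply lt_of_pow_lt_pow_left₀ 2 (by positivity) h2
  exact_mod_cast h3

theorem Good.up {X a b a' b' : ℕ} (h : Good X a b a' b') : a' ≤ 6 * X := by
  have e := h.eq
  have h1 := h.aX
  have h2 := h.hb2
  have h3 : a' ^ 2 ≤ (6 * X) ^ 2 := by
    have : a ^ 2 + 3 * a * b + 3 * b ^ 2 ≤ X ^ 2 + 3 * X * (2 * X) + 3 * (2 * X) ^ 2 := by gcongr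
    nlinarith
  exact (Nat.pow_le_pow_iff_left (by norm_num)).1 h3

theorem Good.low {X a b a' b' : ℕ} (h : Good X a b a' b') : X ≤ a' ^ 2 := by
  have e := h.idc
  have h1 : (a' : ℤ) + 2 * b' + 1 ≤ a + 2 * b := by exact_mod_cast h.clt
  have h2 : (X : ℤ) ≤ b := by exact_mod_cast h.hb
  have h0 : (0 : ℤ) ≤ a' + 2 * b' := by positivity
  have h3 : ((a' : ℤ) + 2 * b') ^ 2 ≤ ((a : ℤ) + 2 * b - 1) ^ 2 := by
    have : (a' : ℤ) + 2 * b' ≤ a + 2 * b - 1 := by linarith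
    nlinarith
  have ha : (1 : ℤ) ≤ a := by exact_mod_cast h.h1
  have h4 : (X : ℤ) ≤ (a' : ℤ) ^ 2 := by nlinarith
  exact_mod_cast h4

theorem Good.dvd {X a b a' b' : ℕ} (h : Good X a b a' b') :
    (a + 2 * b - (a' + 2 * b')) ∣ (a' ^ 2 - a ^ 2) := by
  have e := h.idc
  have hl := h.lt
  have hc := h.clt
  have h1 : a ^ 2 ≤ a' ^ 2 := Nat.pow_le_pow_left hl.le 2
  have : ((a + 2 * b - (a' + 2 * b') : ℕ) : ℤ) ∣ ((a' ^ 2 - a ^ 2 : ℕ) : ℤ) := by
    rw [Nat.cast_sub hc.le, Nat.cast_sub h1]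
    push_cast
    exact ⟨3 * (((a : ℤ) + 2 * b) + (a' + 2 * b')), by linear_combination e⟩
  exact_mod_cast this

/-- the set of triples -/
def TT (X a : ℕ) : Finset (Σ _ : ℕ, ℕ × ℕ) :=
  (Finset.Icc X (2 * X)).sigma fun b =>
    (Pool.Agent.H5O.reps (a ^ 2 + 3 * a * b + 3 * b ^ 2)).erase (a, b)

theorem good_of_mem {X a : ℕ} (ha : 1 ≤ a) (hX : a ^ 2 + 1 ≤ X) {t : Σ _ : ℕ, ℕ × ℕ}
    (ht : t ∈ TT X a) : Good X a t.1 t.2.1 t.2.2 := by
  unfold TT Pool.Agent.H5O.reps at ht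
  simp only [Finset.mem_sigma, Finset.mem_Icc, Finset.mem_erase, Finset.mem_filter, ne_eq,
    Prod.ext_iff] at ht
  obtain ⟨⟨h1, h2⟩, h3, _, h4, h5, h6⟩ := ht
  exact ⟨ha, hX, h1, h2, h4, h5, h6, h3⟩

theorem card_TT {X a D : ℕ} (ha : 1 ≤ a) (hX : a ^ 2 + 1 ≤ X)
    (hD : ∀ n : ℕ, n ≠ 0 → n ≤ 36 * X ^ 2 → n.divisors.card ≤ D) :
    (TT X a).card ≤ 6 * X * D := by
  classical
  have h1 : (TT X a).card ≤
      ((Finset.Ioc a (6 * X)).sigma fun a' => (a' ^ 2 - a ^ 2).divisors).card := by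
    apply Finset.card_le_card_of_injOn
      (fun t => (⟨t.2.1, a + 2 * t.1 - (t.2.1 + 2 * t.2.2)⟩ : Σ _ : ℕ, ℕ))
    · intro t ht
      have hg := good_of_mem ha hX ht
      simp only [Finset.coe_sigma, Set.mem_sigma_iff, Finset.mem_coe, Finset.mem_Ioc,
        Nat.mem_divisors]
      refine ⟨⟨hg.lt, hg.up⟩, hg.dvd, ?_⟩
      have := Nat.pow_lt_pow_left hg.lt (n := 2) (by norm_num)
      omega
    · intro t ht t' ht' hE
      have hg := good_of_mem ha hX ht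
      have hg' := good_of_mem ha hX ht'
      obtain ⟨b, x, y⟩ := t
      obtain ⟨b', x', y'⟩ := t'
      simp only [Sigma.mk.injEq, heq_eq_eq] at hE
      simp only at hg hg'
      obtain ⟨rfl, hE⟩ := hE
      have i1 := hg.idc
      have i2 := hg'.idc
      have c1 := hg.clt
      have c2 := hg'.clt
      zify [c1.le, c2.le] at hE
      have hd : (0 : ℤ) < a + 2 * b - (x + 2 * y) := by
        have : ((x + 2 * y : ℕ) : ℤ) < ((a + 2 * b : ℕ) : ℤ) := by exact_mod_cast c1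
        push_cast at this
        linarith
      have hs : (a : ℤ) + 2 * b + (x + 2 * y) = a + 2 * b' + (x + 2 * y') := by
        have : ((a : ℤ) + 2 * b - (x + 2 * y)) * (a + 2 * b + (x + 2 * y))
            = ((a : ℤ) + 2 * b - (x + 2 * y)) * (a + 2 * b' + (x + 2 * y')) := by
          have e3 : 3 * (((a : ℤ) + 2 * b - (x + 2 * y)) * (a + 2 * b + (x + 2 * y)))
            = 3 * (((a : ℤ) + 2 * b' - (x + 2 * y')) * (a + 2 * b' + (x + 2 * y'))) := by
            linear_combination i2 - i1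
          rw [← hE] at e3
          linarith
        exact mul_left_cancel₀ hd.ne' this
      have hb : b = b' := by
        have : (b : ℤ) = b' := by linarith
        exact_mod_cast this
      have hy : y = y' := by
        have : (y : ℤ) = y' := by linarith
        exact_mod_cast this
      subst hb hy
      rfl
  refine h1.trans ?_
  rw [Finset.card_sigma]
  calc ∑ a' ∈ Finset.Ioc a (6 * X), ((a' ^ 2 - a ^ 2).divisors).card
      ≤ ∑ _a' ∈ Finset.Ioc a (6 * X), D := by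
        apply Finset.sum_le_sum
        intro a' ha'
        rw [Finset.mem_Ioc] at ha'
        apply hD
        · have := Nat.pow_lt_pow_left ha'.1 (n := 2) (by norm_num)
          omega
        · have : a' ^ 2 ≤ (6 * X) ^ 2 := Nat.pow_le_pow_left ha'.2 2
          have e : (6 * X) ^ 2 = 36 * X ^ 2 := by ring
          omega
    _ = (6 * X - a) * D := by rw [Finset.sum_const, Nat.card_Ioc, smul_eq_mul]
    _ ≤ 6 * X * D := Nat.mul_le_mul_right _ (Nat.sub_le _ _)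

theorem sq_ne_three {a V : ℕ} (ha : 1 ≤ a) : (a : ℤ) ^ 2 - 3 * (V : ℤ) ^ 2 ≠ 0 := by
  intro h
  have hirr : Irrational (Real.sqrt 3) := by
    exact_mod_cast Nat.prime_three.irrational_sqrt
  have hV : (V : ℝ) ≠ 0 := by
    intro h0
    have : V = 0 := by exact_mod_cast h0
    subst this
    have : (a : ℤ) ^ 2 = 0 := by simpa using h
    have : (1 : ℤ) ≤ a := by exact_mod_cast ha
    nlinarith
  apply hirr
  refine ⟨(a : ℚ) / V, ?_⟩
  push_cast
  have h2 : (a : ℝ) ^ 2 = 3 * (V : ℝ) ^ 2 := by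
    have : (a : ℤ) ^ 2 = 3 * (V : ℤ) ^ 2 := by linarith
    exact_mod_cast this
  have h3 : ((a : ℝ) / V) ^ 2 = 3 := by
    rw [div_pow, h2]; field_simp
  rw [← h3, Real.sqrt_sq (by positivity)]

/-- key injectivity -/
theorem dd_inj {k U1 c1 U2 c2 U3 c3 : ℤ} (hk : k ≠ 0) (hU1 : 0 < U1) (hU2 : 0 < U2)
    (hU3 : 0 < U3) (hc1 : 0 < c1) (hc2 : 0 < c2) (hc3 : 0 < c3)
    (e1 : U1 ^ 2 - 3 * c1 ^ 2 = k) (e2 : U2 ^ 2 - 3 * c2 ^ 2 = k)
    (e3 : U3 ^ 2 - 3 * c3 ^ 2 = k) (h : U1 * c2 - U2 * c1 = U1 * c3 - U3 * c1) : c2 = c3 := by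
  by_contra hne
  have h1 : U1 * (c2 - c3) = c1 * (U2 - U3) := by linear_combination h
  have h2 : (U2 - U3) * (U2 + U3) = 3 * ((c2 - c3) * (c2 + c3)) := by
    linear_combination e2 - e3
  have h3 : (c2 - c3) * (U1 * (U2 + U3)) = (c2 - c3) * (3 * (c1 * (c2 + c3))) := by
    linear_combination (U2 + U3) * h1 + c1 * h2
  have h4 : U1 * (U2 + U3) = 3 * (c1 * (c2 + c3)) := mul_left_cancel₀ (sub_ne_zero.2 hne) h3
  rcases lt_or_gt_of_ne hk with hk0 | hk0
  · have key : ∀ U c : ℤ, 0 < U → 0 < c → U ^ 2 - 3 * c ^ 2 = k → U1 * U < 3 * (c1 * c) := by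
      intro U c hU hc e
      apply lt_of_pow_lt_pow_left₀ 2 (by positivity)
      have a1 : U1 ^ 2 < 3 * c1 ^ 2 := by linarith
      have a2 : U ^ 2 < 3 * c ^ 2 := by linarith
      calc (U1 * U) ^ 2 = U1 ^ 2 * U ^ 2 := by ring
        _ < (3 * c1 ^ 2) * (3 * c ^ 2) := by
          apply mul_lt_mul'' a1 a2 (by positivity) (by positivity)
        _ = (3 * (c1 * c)) ^ 2 := by ring
    have := key U2 c2 hU2 hc2 e2
    have := key U3 c3 hU3 hc3 e3
    linarith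
  · have key : ∀ U c : ℤ, 0 < U → 0 < c → U ^ 2 - 3 * c ^ 2 = k → 3 * (c1 * c) < U1 * U := by
      intro U c hU hc e
      apply lt_of_pow_lt_pow_left₀ 2 (by positivity)
      have a1 : 3 * c1 ^ 2 < U1 ^ 2 := by linarith
      have a2 : 3 * c ^ 2 < U ^ 2 := by linarith
      calc (3 * (c1 * c)) ^ 2 = (3 * c1 ^ 2) * (3 * c ^ 2) := by ring
        _ < U1 ^ 2 * U ^ 2 := by
          apply mul_lt_mul'' a1 a2 (by positivity) (by positivity)
        _ = (U1 * U) ^ 2 := by ring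
    have := key U2 c2 hU2 hc2 e2
    have := key U3 c3 hU3 hc3 e3
    linarith

theorem dd_bound {k K U1 c1 U2 c2 : ℤ} (hU1 : 0 < U1) (hU2 : 0 < U2)
    (hc1 : 0 < c1) (hc2 : 0 < c2) (hkK : |k| ≤ K) (hK1 : K ≤ c1 ^ 2) (hK2 : K ≤ c2 ^ 2)
    (h12 : c1 ≤ 2 * c2) (h21 : c2 ≤ 2 * c1)
    (e1 : U1 ^ 2 - 3 * c1 ^ 2 = k) (e2 : U2 ^ 2 - 3 * c2 ^ 2 = k) :
    |U1 * c2 - U2 * c1| ≤ K := by
  have hk1 := neg_abs_le k
  have b1 : c1 ≤ U1 := by
    apply le_of_sq_le_sq _ hU1.le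
    nlinarith
  have b2 : c2 ≤ U2 := by
    apply le_of_sq_le_sq _ hU2.le
    nlinarith
  have hs : 0 < U1 * c2 + U2 * c1 := by positivity
  have h1 : (U1 * c2 - U2 * c1) * (U1 * c2 + U2 * c1) = k * (c2 ^ 2 - c1 ^ 2) := by
    linear_combination c2 ^ 2 * e1 - c1 ^ 2 * e2
  have h2 : |c2 ^ 2 - c1 ^ 2| ≤ U1 * c2 + U2 * c1 := by
    have g1 : c1 * c2 ≤ U1 * c2 := by nlinarith
    have g2 : c1 * c2 ≤ U2 * c1 := by nlinarith
    rw [abs_le]
    constructor
    · nlinarith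
    · nlinarith
  have h3 : |U1 * c2 - U2 * c1| * (U1 * c2 + U2 * c1) ≤ K * (U1 * c2 + U2 * c1) := by
    calc |U1 * c2 - U2 * c1| * (U1 * c2 + U2 * c1)
        = |(U1 * c2 - U2 * c1) * (U1 * c2 + U2 * c1)| := by
          rw [abs_mul, abs_of_pos hs]
      _ = |k| * |c2 ^ 2 - c1 ^ 2| := by rw [h1, abs_mul]
      _ ≤ K * (U1 * c2 + U2 * c1) := by
          apply mul_le_mul hkK h2 (abs_nonneg _) ((abs_nonneg _).trans hkK)
  exact le_of_mul_le_mul_right h3 hs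

theorem card_small {X a Y : ℕ} (ha : 1 ≤ a) (hX : a ^ 2 + 1 ≤ X) (hY : a ^ 2 + 3 * Y ^ 2 ≤ X ^ 2) :
    ((TT X a).filter fun t => t.2.2 ≤ Y).card ≤ (2 * (a ^ 2 + 3 * Y ^ 2) + 1) * Y := by
  classical
  set K : ℕ := a ^ 2 + 3 * Y ^ 2 with hK
  have h1 := Finset.card_le_mul_card_image (f := fun t : (Σ _ : ℕ, ℕ × ℕ) => t.2.2)
    ((TT X a).filter fun t => t.2.2 ≤ Y) (2 * K + 1) (by
      intro V hV
      set s := ((TT X a).filter fun t => t.2.2 ≤ Y).filter (fun x => x.2.2 = V) with hs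
      rcases s.eq_empty_or_nonempty with he | ⟨t0, ht0⟩
      · rw [he]; simp
      have hm : ∀ t ∈ s, Good X a t.1 t.2.1 V ∧ V ≤ Y := by
        intro t ht
        rw [hs, Finset.mem_filter, Finset.mem_filter] at ht
        have := good_of_mem ha hX ht.1.1
        rw [ht.2] at this
        refine ⟨this, ?_⟩
        rw [← ht.2]; exact ht.1.2
      have hVY : V ≤ Y := (hm t0 ht0).2
      set k : ℤ := (a : ℤ) ^ 2 - 3 * (V : ℤ) ^ 2 with hk
      have hkK : |k| ≤ (K : ℤ) := by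
        rw [hK, hk, abs_le]
        have hV2 : (V : ℤ) ^ 2 ≤ (Y : ℤ) ^ 2 := by
          have : (V : ℤ) ≤ Y := by exact_mod_cast hVY
          nlinarith [(by positivity : (0 : ℤ) ≤ V)]
        push_cast
        constructor
        · nlinarith [sq_nonneg (a : ℤ)]
        · nlinarith [sq_nonneg (V : ℤ), sq_nonneg (Y : ℤ)]
      have hU : ∀ t ∈ s, (2 * (t.2.1 : ℤ) + 3 * V) ^ 2 - 3 * ((a : ℤ) + 2 * t.1) ^ 2 = k := by
        intro t ht
        have e := (hm t ht).1.eq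
        zify at e
        rw [hk]
        linear_combination 4 * e
      have hc : ∀ t ∈ s, (2 * (X : ℤ) + a ≤ a + 2 * t.1) ∧ ((a : ℤ) + 2 * t.1 ≤ 4 * X + a) := by
        intro t ht
        have g := (hm t ht).1
        have g1 : (X : ℤ) ≤ t.1 := by exact_mod_cast g.hb
        have g2 : (t.1 : ℤ) ≤ 2 * X := by exact_mod_cast g.hb2
        constructor <;> linarith
      have hXpos : (0 : ℤ) < X := by
        have : 0 < X := by omega
        exact_mod_cast this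
      have hpos : ∀ t ∈ s, (0 : ℤ) < 2 * (t.2.1 : ℤ) + 3 * V := by
        intro t ht
        have g := (hm t ht).1
        have : (1 : ℤ) ≤ t.2.1 := by exact_mod_cast g.h2
        positivity
      have hcpos : ∀ t ∈ s, (0 : ℤ) < (a : ℤ) + 2 * t.1 := by
        intro t ht
        have := (hc t ht).1
        have : (0 : ℤ) ≤ a := by positivity
        linarith
      have hKc : ∀ t ∈ s, (K : ℤ) ≤ ((a : ℤ) + 2 * t.1) ^ 2 := by
        intro t ht
        have h1 := (hc t ht).1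
        have h2 : (K : ℤ) ≤ (X : ℤ) ^ 2 := by exact_mod_cast hY
        have h3 : (0 : ℤ) ≤ a := by positivity
        nlinarith
      have hcard : s.card ≤ (Finset.Icc (-(K : ℤ)) K).card := by
        apply Finset.card_le_card_of_injOn
          (fun t => (2 * (t0.2.1 : ℤ) + 3 * V) * ((a : ℤ) + 2 * t.1)
            - (2 * (t.2.1 : ℤ) + 3 * V) * ((a : ℤ) + 2 * t0.1))
        · intro t ht
          simp only [Finset.coe_Icc, Set.mem_Icc]
          rw [← abs_le]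
          apply dd_bound (hpos t0 ht0) (hpos t ht) (hcpos t0 ht0) (hcpos t ht) hkK
            (hKc t0 ht0) (hKc t ht) _ _ (hU t0 ht0) (hU t ht)
          · have := (hc t ht).1
            have := (hc t0 ht0).2
            have : (0 : ℤ) ≤ a := by positivity
            linarith
          · have := (hc t ht).2
            have := (hc t0 ht0).1
            have : (0 : ℤ) ≤ a := by positivity
            linarith
        · intro t ht t' ht' hE
          simp only at hE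
          have hcc := dd_inj (sq_ne_three (V := V) ha) (hpos t0 ht0) (hpos t ht) (hpos t' ht')
            (hcpos t0 ht0) (hcpos t ht) (hcpos t' ht') (hU t0 ht0) (hU t ht) (hU t' ht') hE
          have hbb : t.1 = t'.1 := by
            have : (t.1 : ℤ) = t'.1 := by linarith
            exact_mod_cast this
          have hUU : (2 * (t.2.1 : ℤ) + 3 * V) = (2 * (t'.2.1 : ℤ) + 3 * V) := by
            have e1 := hU t ht
            have e2 := hU t' ht'
            rw [hcc] at e1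
            have e3 : (2 * (t.2.1 : ℤ) + 3 * V) ^ 2 = (2 * (t'.2.1 : ℤ) + 3 * V) ^ 2 := by
              linarith
            rw [sq_eq_sq₀ (hpos t ht).le (hpos t' ht').le] at e3
            exact e3
          have haa : t.2.1 = t'.2.1 := by
            have : (t.2.1 : ℤ) = t'.2.1 := by linarith
            exact_mod_cast this
          have hv : t.2.2 = V := by
            rw [hs] at ht
            exact (Finset.mem_filter.1 ht).2
          have hv' : t'.2.2 = V := by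
            rw [hs] at ht'
            exact (Finset.mem_filter.1 ht').2
          obtain ⟨b, x, y⟩ := t
          obtain ⟨b', x', y'⟩ := t'
          simp only at hbb haa hv hv'
          subst hbb haa
          rw [hv, hv']
      refine hcard.trans ?_
      rw [Int.card_Icc]
      omega)
  refine h1.trans ?_
  apply Nat.mul_le_mul_left
  have : (((TT X a).filter fun t => t.2.2 ≤ Y).image fun t : (Σ _ : ℕ, ℕ × ℕ) => t.2.2)
      ⊆ Finset.Icc 1 Y := by
    intro V hV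
    rw [Finset.mem_image] at hV
    obtain ⟨t, ht, rfl⟩ := hV
    rw [Finset.mem_filter] at ht
    rw [Finset.mem_Icc]
    exact ⟨(good_of_mem ha hX ht.1).h3, ht.2⟩
  have := Finset.card_le_card this
  simpa using this

theorem nt : Pool.Agent.H5O.NtStatement := by
  classical
  intro a ha ε hε b₀
  obtain ⟨C, hC1, hC⟩ := Pool.Agent.Helper69_Weyl.exists_card_divisors_le (1 / 16) (by norm_num)
  obtain ⟨l0, hl0⟩ := exists_nat_gt ((432 * C + 2 * (a : ℝ) ^ 2 + 7) / ε)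
  set l : ℕ := max l0 (max (a ^ 2 + 1) b₀) with hl
  have hla : a ^ 2 + 1 ≤ l := (le_max_left _ _).trans (le_max_right _ _)
  have hlb : b₀ ≤ l := (le_max_right _ _).trans (le_max_right _ _)
  have hll : l0 ≤ l := le_max_left _ _
  have hl2 : 2 ≤ l := by
    have : 1 ≤ a ^ 2 := Nat.one_le_pow _ _ ha
    omega
  have hl1 : 1 ≤ l := by omega
  have hlr : (2 : ℝ) ≤ l := by exact_mod_cast hl2
  have hpow : l ≤ l ^ 8 := Nat.le_self_pow (by norm_num) l
  have hX : a ^ 2 + 1 ≤ l ^ 8 := hla.trans hpow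
  have hY : a ^ 2 + 3 * (l ^ 2) ^ 2 ≤ (l ^ 8) ^ 2 := by
    have h1 : a ^ 2 ≤ l ^ 4 := by
      have : l ≤ l ^ 4 := Nat.le_self_pow (by norm_num) l
      omega
    have h2 : 4 * l ^ 4 ≤ l ^ 4 * l ^ 12 := by
      have : 2 ^ 12 ≤ l ^ 12 := Nat.pow_le_pow_left hl2 12
      nlinarith [Nat.zero_le (l ^ 4)]
    have e1 : (l ^ 2) ^ 2 = l ^ 4 := by ring
    have e2 : (l ^ 8) ^ 2 = l ^ 4 * l ^ 12 := by ring
    rw [e1, e2]
    omega
  have hcard := card_TT (D := ⌊C * (36 * l)⌋₊) ha hX (by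
    intro n hn hle
    apply Nat.le_floor
    refine (hC n hn).trans ?_
    apply mul_le_mul_of_nonneg_left _ (by linarith)
    have h1 : (n : ℝ) ≤ (36 * (l : ℝ)) ^ 16 := by
      have h2 : (n : ℝ) ≤ 36 * ((l : ℝ) ^ 8) ^ 2 := by exact_mod_cast hle
      have h3 : (36 * (l : ℝ)) ^ 16 = 36 ^ 16 * ((l : ℝ) ^ 8) ^ 2 := by ring
      rw [h3]
      refine h2.trans ?_
      apply mul_le_mul_of_nonneg_right (by norm_num) (by positivity)
    calc (n : ℝ) ^ ((1 : ℝ) / 16) ≤ ((36 * (l : ℝ)) ^ 16) ^ ((1 : ℝ) / 16) :=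
          Real.rpow_le_rpow (by positivity) h1 (by norm_num)
      _ = 36 * l := by
          have := Real.pow_rpow_inv_natCast (x := 36 * (l : ℝ)) (n := 16) (by positivity)
            (by norm_num)
          rw [one_div]
          exact_mod_cast this)
  have hcard' : ((TT (l ^ 8) a).card : ℝ) ≤ 216 * C * (l : ℝ) ^ 9 := by
    have h1 : ((TT (l ^ 8) a).card : ℝ) ≤ 6 * (l : ℝ) ^ 8 * (⌊C * (36 * l)⌋₊ : ℝ) := by
      exact_mod_cast hcard
    have h2 : (⌊C * (36 * (l : ℝ))⌋₊ : ℝ) ≤ C * (36 * l) := Nat.floor_le (by positivity)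
    calc ((TT (l ^ 8) a).card : ℝ) ≤ 6 * (l : ℝ) ^ 8 * (⌊C * (36 * l)⌋₊ : ℝ) := h1
      _ ≤ 6 * (l : ℝ) ^ 8 * (C * (36 * l)) := by gcongr
      _ = 216 * C * (l : ℝ) ^ 9 := by ring
  have hsmall := card_small (Y := l ^ 2) ha hX hY
  have hsmall' : ((((TT (l ^ 8) a).filter fun t => t.2.2 ≤ l ^ 2).card : ℕ) : ℝ)
      ≤ (2 * (a : ℝ) ^ 2 + 7) * (l : ℝ) ^ 6 := by
    have h1 : ((((TT (l ^ 8) a).filter fun t => t.2.2 ≤ l ^ 2).card : ℕ) : ℝ)
        ≤ (2 * ((a : ℝ) ^ 2 + 3 * ((l : ℝ) ^ 2) ^ 2) + 1) * (l : ℝ) ^ 2 := by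
      exact_mod_cast hsmall
    refine h1.trans ?_
    have h4 : (1 : ℝ) ≤ (l : ℝ) ^ 4 := one_le_pow₀ (by linarith)
    have h5 : (2 * ((a : ℝ) ^ 2 + 3 * ((l : ℝ) ^ 2) ^ 2) + 1) ≤ (2 * (a : ℝ) ^ 2 + 7) * (l : ℝ) ^ 4 := by
      nlinarith [sq_nonneg (a : ℝ)]
    calc (2 * ((a : ℝ) ^ 2 + 3 * ((l : ℝ) ^ 2) ^ 2) + 1) * (l : ℝ) ^ 2
        ≤ ((2 * (a : ℝ) ^ 2 + 7) * (l : ℝ) ^ 4) * (l : ℝ) ^ 2 := by gcongr
      _ = (2 * (a : ℝ) ^ 2 + 7) * (l : ℝ) ^ 6 := by ring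
  by_contra hcon
  push Not at hcon
  have hlow : ε * (l : ℝ) ^ 8 ≤ ∑ b ∈ Finset.Icc (l ^ 8) (2 * l ^ 8),
      ∑ p ∈ (Pool.Agent.H5O.reps (a ^ 2 + 3 * a * b + 3 * b ^ 2)).erase (a, b),
        ((p.1 : ℝ)⁻¹ + (p.2 : ℝ)⁻¹) := by
    calc ε * (l : ℝ) ^ 8 ≤ ∑ b ∈ Finset.Icc (l ^ 8) (2 * l ^ 8), ε := by
          rw [Finset.sum_const, Nat.card_Icc, nsmul_eq_mul]
          have : ((2 * l ^ 8 + 1 - l ^ 8 : ℕ) : ℝ) = (l : ℝ) ^ 8 + 1 := by
            have : 2 * l ^ 8 + 1 - l ^ 8 = l ^ 8 + 1 := by omega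
            rw [this]; push_cast; ring
          rw [this]
          nlinarith
      _ ≤ _ := by
          apply Finset.sum_le_sum
          intro b hb
          rw [Finset.mem_Icc] at hb
          exact (hcon b (by omega)).le
  have hsig : ∑ b ∈ Finset.Icc (l ^ 8) (2 * l ^ 8),
      ∑ p ∈ (Pool.Agent.H5O.reps (a ^ 2 + 3 * a * b + 3 * b ^ 2)).erase (a, b),
        ((p.1 : ℝ)⁻¹ + (p.2 : ℝ)⁻¹)
      = ∑ t ∈ TT (l ^ 8) a, ((t.2.1 : ℝ)⁻¹ + (t.2.2 : ℝ)⁻¹) := by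
    unfold TT
    rw [Finset.sum_sigma]
  rw [hsig, Finset.sum_add_distrib] at hlow
  have hp1 : ∑ t ∈ TT (l ^ 8) a, ((t.2.1 : ℝ)⁻¹) ≤ 216 * C * (l : ℝ) ^ 7 := by
    calc ∑ t ∈ TT (l ^ 8) a, ((t.2.1 : ℝ)⁻¹) ≤ ∑ t ∈ TT (l ^ 8) a, ((l : ℝ) ^ 4)⁻¹ := by
          apply Finset.sum_le_sum
          intro t ht
          have hg := (good_of_mem ha hX ht).low
          have h1 : (l ^ 4) ^ 2 ≤ t.2.1 ^ 2 := by
            have : (l ^ 4) ^ 2 = l ^ 8 := by ring
            omega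
          have h2 : l ^ 4 ≤ t.2.1 := (Nat.pow_le_pow_iff_left (by norm_num)).1 h1
          have h3 : (l : ℝ) ^ 4 ≤ (t.2.1 : ℝ) := by exact_mod_cast h2
          apply inv_anti₀ (by positivity) h3
      _ = (TT (l ^ 8) a).card * ((l : ℝ) ^ 4)⁻¹ := by rw [Finset.sum_const, nsmul_eq_mul]
      _ ≤ (216 * C * (l : ℝ) ^ 9) * ((l : ℝ) ^ 4)⁻¹ := by gcongr
      _ = 216 * C * (l : ℝ) ^ 5 := by
          have : (l : ℝ) ≠ 0 := by positivity
          field_simp
      _ ≤ 216 * C * (l : ℝ) ^ 7 := by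
          have : (l : ℝ) ^ 5 ≤ (l : ℝ) ^ 7 := pow_le_pow_right₀ (by linarith) (by norm_num)
          gcongr
  have hp2 : ∑ t ∈ TT (l ^ 8) a, ((t.2.2 : ℝ)⁻¹)
      ≤ (2 * (a : ℝ) ^ 2 + 7) * (l : ℝ) ^ 7 + 216 * C * (l : ℝ) ^ 7 := by
    rw [← Finset.sum_filter_add_sum_filter_not (TT (l ^ 8) a) (fun t => t.2.2 ≤ l ^ 2)]
    apply add_le_add
    · calc ∑ t ∈ (TT (l ^ 8) a).filter (fun t => t.2.2 ≤ l ^ 2), ((t.2.2 : ℝ)⁻¹)
          ≤ ∑ t ∈ (TT (l ^ 8) a).filter (fun t => t.2.2 ≤ l ^ 2), (1 : ℝ) := by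
            apply Finset.sum_le_sum
            intro t ht
            rw [Finset.mem_filter] at ht
            have h3 : 1 ≤ t.2.2 := (good_of_mem ha hX ht.1).h3
            apply inv_le_one_of_one_le₀
            exact_mod_cast h3
        _ = (((TT (l ^ 8) a).filter fun t => t.2.2 ≤ l ^ 2).card : ℝ) := by
            rw [Finset.sum_const, nsmul_eq_mul, mul_one]
        _ ≤ (2 * (a : ℝ) ^ 2 + 7) * (l : ℝ) ^ 6 := hsmall'
        _ ≤ (2 * (a : ℝ) ^ 2 + 7) * (l : ℝ) ^ 7 := by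
            have : (l : ℝ) ^ 6 ≤ (l : ℝ) ^ 7 := pow_le_pow_right₀ (by linarith) (by norm_num)
            gcongr
    · calc ∑ t ∈ (TT (l ^ 8) a).filter (fun t => ¬ t.2.2 ≤ l ^ 2), ((t.2.2 : ℝ)⁻¹)
          ≤ ∑ t ∈ (TT (l ^ 8) a).filter (fun t => ¬ t.2.2 ≤ l ^ 2), ((l : ℝ) ^ 2)⁻¹ := by
            apply Finset.sum_le_sum
            intro t ht
            rw [Finset.mem_filter] at ht
            have h2 : l ^ 2 ≤ t.2.2 := by omega
            have h3 : (l : ℝ) ^ 2 ≤ (t.2.2 : ℝ) := by exact_mod_cast h2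
            apply inv_anti₀ (by positivity) h3
        _ = (((TT (l ^ 8) a).filter fun t => ¬ t.2.2 ≤ l ^ 2).card : ℝ) * ((l : ℝ) ^ 2)⁻¹ := by
            rw [Finset.sum_const, nsmul_eq_mul]
        _ ≤ (216 * C * (l : ℝ) ^ 9) * ((l : ℝ) ^ 2)⁻¹ := by
            apply mul_le_mul_of_nonneg_right _ (by positivity)
            refine le_trans ?_ hcard'
            exact_mod_cast Finset.card_filter_le _ _
        _ = 216 * C * (l : ℝ) ^ 7 := by
            have : (l : ℝ) ≠ 0 := by positivity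
            field_simp
  have hfin : ε * (l : ℝ) ^ 8 ≤ (432 * C + 2 * (a : ℝ) ^ 2 + 7) * (l : ℝ) ^ 7 := by
    calc ε * (l : ℝ) ^ 8 ≤ _ := hlow
      _ ≤ 216 * C * (l : ℝ) ^ 7 + ((2 * (a : ℝ) ^ 2 + 7) * (l : ℝ) ^ 7 + 216 * C * (l : ℝ) ^ 7) :=
          add_le_add hp1 hp2
      _ = _ := by ring
  have hfin2 : ε * (l : ℝ) ≤ 432 * C + 2 * (a : ℝ) ^ 2 + 7 := by
    have h7 : (0 : ℝ) < (l : ℝ) ^ 7 := by positivity
    have : (ε * (l : ℝ)) * (l : ℝ) ^ 7 ≤ (432 * C + 2 * (a : ℝ) ^ 2 + 7) * (l : ℝ) ^ 7 := by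
      calc (ε * (l : ℝ)) * (l : ℝ) ^ 7 = ε * (l : ℝ) ^ 8 := by ring
        _ ≤ _ := hfin
    exact le_of_mul_le_mul_right this h7
  have h9 : (432 * C + 2 * (a : ℝ) ^ 2 + 7) / ε < (l : ℝ) := by
    have : (l0 : ℝ) ≤ l := by exact_mod_cast hll
    linarith
  rw [div_lt_iff₀ hε] at h9
  linarith

end Pool.Agent.H5O.H42
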